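import Pool.Agent.Helper27.Mess.Defs

/-!
MS-13 (MP_dbae29_al): divisibility in the ring of integers of a number field from the action on a
finitely generated module.
-/

set_option autoImplicit false

namespace Pool.Agent.Helper27.Mess

open scoped TensorProduct nonZeroDivisors

/-- MS-13: pure commutative algebra over the ring of integers of a number field. -/
theorem dvd_of_smul (L : Type) [Field L] [NumberField L] (E : Type*) [AddCommGroup E]
    [Module (NumberField.RingOfIntegers L) E]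
    (N N₀ : Submodule (NumberField.RingOfIntegers L) E)
    (hN : Module.Finite (NumberField.RingOfIntegers L) N) (h0 : N₀ ≤ N) (f : E) (hf : f ∈ N)
    (hfN : ∀ c : ℤ, c ≠ 0 → (c : NumberField.RingOfIntegers L) • f ∉ N₀)
    (x : NumberField.RingOfIntegers L) (q : ℤ) (hq : q ≠ 0)
    (hx : ∀ n ∈ N, ∃ n₀ ∈ N₀, ∃ n' ∈ N, x • n = n₀ + (q : NumberField.RingOfIntegers L) • n') :
    (q : NumberField.RingOfIntegers L) ∣ x := by
  let ι : (E ⧸ N₀) →ₗ[NumberField.RingOfIntegers L]
      L ⊗[NumberField.RingOfIntegers L] (E ⧸ N₀) :=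
    TensorProduct.mk (NumberField.RingOfIntegers L) L (E ⧸ N₀) 1
  have hloc : IsLocalizedModule (nonZeroDivisors (NumberField.RingOfIntegers L)) ι :=
    (isLocalizedModule_iff_isBaseChange (nonZeroDivisors (NumberField.RingOfIntegers L)) L ι).2
      (TensorProduct.isBaseChange _ _ _)
  let P : Submodule (NumberField.RingOfIntegers L)
      (L ⊗[NumberField.RingOfIntegers L] (E ⧸ N₀)) := (N.map N₀.mkQ).map ι
  have hqL : (q : L) ≠ 0 := Int.cast_ne_zero.2 hq
  have hPfg : P.FG := ((Module.Finite.iff_fg.1 hN).map _).map _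
  have hPne : P ≠ ⊥ := by
    intro hbot
    have hmem : ι (N₀.mkQ f) ∈ P := ⟨_, ⟨f, hf, rfl⟩, rfl⟩
    rw [hbot, Submodule.mem_bot] at hmem
    obtain ⟨c, hc⟩ := (IsLocalizedModule.eq_zero_iff
      (nonZeroDivisors (NumberField.RingOfIntegers L)) ι).1 hmem
    have hc0 : (c : NumberField.RingOfIntegers L) ≠ 0 := nonZeroDivisors.coe_ne_zero c
    -- a nonzero integer multiple of `c`
    obtain ⟨m, hm0, b, hb⟩ : ∃ m : ℤ, m ≠ 0 ∧ ∃ b : NumberField.RingOfIntegers L,
        (m : NumberField.RingOfIntegers L) = b * c := by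
      obtain ⟨b, hb⟩ := Ideal.mem_span_singleton'.1
        (Ideal.absNorm_mem (Ideal.span {(c : NumberField.RingOfIntegers L)}))
      refine ⟨((Ideal.absNorm (Ideal.span {(c : NumberField.RingOfIntegers L)}) : ℕ) : ℤ),
        ?_, b, by rw [hb]; simp⟩
      rw [Int.natCast_ne_zero, Ne, Ideal.absNorm_eq_zero_iff, Ideal.span_singleton_eq_bot]
      exact hc0
    apply hfN m hm0
    have h1 : (c : NumberField.RingOfIntegers L) • N₀.mkQ f = 0 := hc
    rw [← map_smul, Submodule.mkQ_apply, Submodule.Quotient.mk_eq_zero] at h1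
    rw [hb, mul_smul]
    exact N₀.smul_mem _ h1
  have hsm : ∀ n ∈ P, ((algebraMap (NumberField.RingOfIntegers L) L x) / (q : L)) • n ∈ P := by
    rintro _ ⟨_, ⟨e, he, rfl⟩, rfl⟩
    obtain ⟨n₀, hn₀, n', hn', hxe⟩ := hx e he
    refine ⟨N₀.mkQ n', ⟨n', hn', rfl⟩, ?_⟩
    have h1 : x • ι (N₀.mkQ e) = (q : NumberField.RingOfIntegers L) • ι (N₀.mkQ n') := by
      rw [← map_smul, ← map_smul, hxe, map_add, map_smul]
      have : N₀.mkQ n₀ = 0 := by
        rw [Submodule.mkQ_apply, Submodule.Quotient.mk_eq_zero]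
        exact hn₀
      rw [this, zero_add, map_smul]
    have h2 : (algebraMap (NumberField.RingOfIntegers L) L x) • ι (N₀.mkQ e)
        = (q : L) • ι (N₀.mkQ n') := by
      rw [algebraMap_smul, h1, ← algebraMap_smul L]
      simp
    rw [div_eq_inv_mul, mul_smul, h2, smul_smul, inv_mul_cancel₀ hqL, one_smul]
  have hint : IsIntegral (NumberField.RingOfIntegers L)
      ((algebraMap (NumberField.RingOfIntegers L) L x) / (q : L)) :=
    isIntegral_of_smul_mem_submodule P hPne hPfg _ hsm
  obtain ⟨y, hy⟩ := IsIntegrallyClosed.isIntegral_iff.1 hint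
  refine ⟨y, ?_⟩
  apply FaithfulSMul.algebraMap_injective (NumberField.RingOfIntegers L) L
  rw [map_mul, hy, map_intCast]
  field_simp

end Pool.Agent.Helper27.Mess
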